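import Pool.Agent.MWBN.Stmts

/-!
Block MWBN, row NFN (MP_23468a_al): normal form for a visibility relation, period `n` (helper16; the
twin of helper77's MWS.NFV).
-/

set_option autoImplicit false

namespace Pool.Agent.MWBN.H16

open Pool.Agent.Helper14_MV Pool.Agent.Helper2_MV Pool.Agent.MVO Pool.Agent.MWL Pool.Agent.MWS

theorem te_congr {θ : FIC} {k : ℕ} {a b a' b' : ℕ → ℕ} {i : ℕ}
    (h : ∀ j ≤ k, (a j = 0 ↔ a' j = 0) ∧ (b j = 0 ↔ b' j = 0)) (hT : TE θ k a b i) :
    TE θ k a' b' i := by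
  have hh : ∀ (l : List ℕ) (e : ℕ → Bool), asm k (cb a' b' e i l) = asm k (cb a b e i l) := by
    intro l e
    refine asm_congr fun j hj => ?_
    obtain ⟨h1, h2⟩ := h j hj
    have e1 : hv (a' j) = hv (a j) := by
      unfold hv
      by_cases h0 : a j = 0
      · rw [if_pos h0, if_pos (h1.1 h0)]
      · rw [if_neg h0, if_neg (fun h3 => h0 (h1.2 h3))]
    have e2 : hv (b' j) = hv (b j) := by
      unfold hv
      by_cases h0 : b j = 0
      · rw [if_pos h0, if_pos (h2.1 h0)]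
      · rw [if_neg h0, if_neg (fun h3 => h0 (h2.2 h3))]
    simp only [cb, e1, e2]
  intro e
  have := hT e
  unfold edg at this ⊢
  simp only at this ⊢
  rw [hh, hh]
  exact this

theorem dbn_ex (hD : DbnStmt) {n : ℕ} {β : FIC} (hβ : ClXn n β) {k : ℕ} {B : ℕ → List ℕ}
    (hB : OkB k B) :
    ∃ Bd : ℕ → List ℕ, RR β (asm k B) (asm k Bd) ∧ OkB k Bd ∧
      (∀ j c, (Bd j).count c = (n + 1) * (B j).count c) ∧
      ∀ j x y, x ≠ y → (Bef (Bd j) x y ↔ Bef (B j) x y) :=
  ⟨fun j => (B j).flatMap (fun c => List.replicate (n + 1) c), hD n β hβ k B hB⟩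

theorem mul_big {n p : ℕ} (hn : 1 ≤ n) (hp : 0 < p) : 2 ≤ (n + 1) * p := by
  have h1 : (n + 1) * 1 ≤ (n + 1) * p := Nat.mul_le_mul_left _ hp
  omega

theorem mul_nul {n p : ℕ} : (n + 1) * p = 0 ↔ p = 0 := by
  constructor
  · intro h
    rcases Nat.mul_eq_zero.1 h with h1 | h1
    · omega
    · exact h1
  · rintro rfl
    exact Nat.mul_zero _

/-- **NFN** -/
theorem nfn (hM : MWHP.MasnStmt) (hD : DbnStmt) : NfnStmt := by
  intro n V β θ hV hβ hle k B B' hB hB' hS H
  obtain ⟨Bd, r1, ok1, c1, b1⟩ := dbn_ex hD hβ.toClXn hB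
  obtain ⟨Bd', r2, ok2, c2, b2⟩ := dbn_ex hD hβ.toClXn hB'
  have hn : 1 ≤ n := hβ.pos
  have hrr : ∀ l l' : List ℕ, RR β l l' → RR θ l l' := fun l l' h => hle _ _ h
  refine θ.trans (hrr _ _ r1) (θ.trans ?_ (hrr _ _ r2).symm)
  refine hM n β θ hβ.toBasN hle k Bd Bd' ok1 ok2 ?_ ?_
  · intro c _ j hj
    show (Bd j).count c = (Bd' j).count c ∨ (2 ≤ (Bd j).count c ∧ 2 ≤ (Bd' j).count c ∧
      (Bd j).count c ≡ (Bd' j).count c [MOD n])
    rw [c1, c2]
    obtain ⟨h1, h2⟩ := hS j hj c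
    rw [← List.count_pos_iff, ← List.count_pos_iff] at h1
    rcases Nat.eq_zero_or_pos ((B j).count c) with h0 | h0
    · left
      have h3 : (B' j).count c = 0 := by omega
      rw [h0, h3]
    · right
      exact ⟨mul_big hn h0, mul_big hn (h1.1 h0), Nat.ModEq.mul_left _ h2⟩
  · intro C i A D x y hC hsh hi hCi hxy hxD hyA hbef
    have hmx : x ∈ C i := by rw [hCi]; simp
    have hmy : y ∈ C i := by rw [hCi]; simp
    have hsx := hsh x (hC.ok i hi x hmx)
    have hsy := hsh y (hC.ok i hi y hmy)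
    have key : ∀ c : ℕ, (∀ j ≤ k, ty Bd c j = ty C c j ∨ (2 ≤ ty Bd c j ∧ 2 ≤ ty C c j)) → ∀ j ≤ k,
        ((B j).count c = 0 ↔ (C j).count c = 0) ∧ (0 < (C j).count c → 2 ≤ (C j).count c) := by
      intro c hc j hj
      have h1 : (Bd j).count c = (C j).count c ∨ (2 ≤ (Bd j).count c ∧ 2 ≤ (C j).count c) :=
        hc j hj
      rw [c1] at h1
      have h2 : (n + 1) * (B j).count c = 0 ↔ (B j).count c = 0 := mul_nul
      have h3 : 0 < (B j).count c → 2 ≤ (n + 1) * (B j).count c := mul_big hn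
      omega
    have hkx := key x (fun j hj => (hsx j hj).imp_right fun h => ⟨h.1, h.2.1⟩)
    have hky := key y (fun j hj => (hsy j hj).imp_right fun h => ⟨h.1, h.2.1⟩)
    have hsup : ∀ j ≤ k, (ty B x j = 0 ↔ ty C x j = 0) ∧ (ty B y j = 0 ↔ ty C y j = 0) :=
      fun j hj => ⟨(hkx j hj).1, (hky j hj).1⟩
    have hxA : x ∈ A := by
      have h1 := (hkx i hi).2 (List.count_pos_iff.2 hmx)
      have h2 : (C i).count x = A.count x + 1 := by
        rw [hCi, List.count_append, List.count_cons_self, List.count_cons_of_ne (Ne.symm hxy),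
          List.count_eq_zero_of_not_mem hxD]
      rw [← List.count_pos_iff]
      omega
    have hyD : y ∈ D := by
      have h1 := (hky i hi).2 (List.count_pos_iff.2 hmy)
      have h2 : (C i).count y = D.count y + 1 := by
        rw [hCi, List.count_append, List.count_cons_of_ne hxy, List.count_cons_self,
          List.count_eq_zero_of_not_mem hyA]
        omega
      rw [← List.count_pos_iff]
      omega
    refine hβ.xch θ hle k C hC i hi A D x y hCi hxy hxA hxD hyA hyD ?_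
    by_cases hv : V k (ty B x) (ty B y) i
    · right
      refine te_congr hsup (H x y i hxy hv ?_)
      rwa [b1 i x y hxy, b2 i x y hxy] at hbef
    · left
      intro h3
      exact hv (hV.ext k _ _ _ _ i (fun j hj => ⟨(hsup j hj).1.symm, (hsup j hj).2.symm⟩) h3)

end Pool.Agent.MWBN.H16
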